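import Pool.Agent.V11238.MG.Conj

/-!
# Infinite finitely generated 2-groups of finite exponent with locally finite proper subgroups
-/

set_option autoImplicit false

open Subgroup

namespace Pool.Agent.Results.MP_63f86b_al.SimpleReduction

/-- Local finiteness: finite subsets generate finite subgroups. -/
def LocFin (G : Type) [Group G] : Prop :=
  ∀ s : Set G, s.Finite → (closure s : Set G).Finite

/-- `G` is an example for Q1 of exponent dividing `2 ^ k`. -/
def Example (k : ℕ) (G : Type) [Group G] : Prop :=
  Infinite G ∧ Group.FG G ∧ (∀ g : G, g ^ 2 ^ k = 1) ∧ ∀ H : Subgroup G, H ≠ ⊤ → LocFin H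

theorem LocFin.of_surj {A B : Type} [Group A] [Group B] (f : A →* B)
    (hf : Function.Surjective f) (h : LocFin A) : LocFin B := by
  intro s hs
  choose g hg using hf
  have h1 := h (g '' s) (hs.image g)
  have h2 : closure s = (closure (g '' s)).map f := by
    rw [MonoidHom.map_closure, Set.image_image]
    simp [hg]
  rw [h2]
  exact h1.image f

theorem finite_of_fg {G : Type} [Group G] (hfg : Group.FG G) (h : LocFin G) : Finite G := by
  obtain ⟨S, hS⟩ := hfg.out
  have h1 := h (S : Set G) S.finite_toSet
  rw [hS] at h1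
  exact Set.finite_univ_iff.1 h1

/-- Every example of exponent dividing `2 ^ k` has no proper subgroup of finite index, has a simple
quotient, and every simple quotient is again an example of exponent dividing `2 ^ k`. -/
theorem result (k : ℕ) (G : Type) [Group G] (h : Example k G) :
    (∀ H : Subgroup G, H.FiniteIndex → H = ⊤) ∧
    (∃ (N : Subgroup G) (_ : N.Normal), IsSimpleGroup (G ⧸ N)) ∧
    ∀ (N : Subgroup G) [N.Normal], IsSimpleGroup (G ⧸ N) → Example k (G ⧸ N) := by
  obtain ⟨hinf, hfg, hexp, hlf⟩ := h
  have hno : ∀ H : Subgroup G, H.FiniteIndex → H = ⊤ := by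
    intro H hH
    by_contra hne
    have h1 : Group.FG H := inferInstance
    have h2 := finite_of_fg h1 (hlf H hne)
    have h4 : Nat.card H * H.index = Nat.card G := card_mul_index _
    have h5 : Nat.card G ≠ 0 := by
      rw [← h4]; exact mul_ne_zero Nat.card_pos.ne' hH.index_ne_zero
    exact hinf.not_finite (Nat.finite_of_card_ne_zero h5)
  refine ⟨hno, ?_, ?_⟩
  · obtain ⟨S, hS⟩ := hfg.out
    obtain ⟨N, -, hN⟩ := zorn_le_nonempty₀ {N : Subgroup G | N.Normal ∧ N ≠ ⊤} (by
      intro c hc hchain N0 hN0
      have hdir : DirectedOn (· ≤ ·) c := hchain.directedOn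
      have hmem : ∀ x, x ∈ sSup c ↔ ∃ N ∈ c, x ∈ N := fun x =>
        mem_sSup_of_directedOn ⟨N0, hN0⟩ hdir
      refine ⟨sSup c, ⟨⟨fun x hx g => ?_⟩, ?_⟩, fun z hz => le_sSup hz⟩
      · obtain ⟨N, hN, hxN⟩ := (hmem x).1 hx
        exact (hmem _).2 ⟨N, hN, (hc hN).1.conj_mem x hxN g⟩
      · intro htop
        have h3 : ∀ T : Finset G, ∃ N ∈ c, (T : Set G) ⊆ N := by
          classical
          intro T
          induction T using Finset.induction_on with
          | empty => exact ⟨N0, hN0, by simp⟩
          | insert a T ha ih =>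
            obtain ⟨N, hN, hTN⟩ := ih
            obtain ⟨M, hM, haM⟩ := (hmem a).1 (by rw [htop]; trivial)
            obtain ⟨P, hP, h1, h2⟩ := hdir N hN M hM
            refine ⟨P, hP, ?_⟩
            rw [Finset.coe_insert]
            exact Set.insert_subset (h2 haM) (hTN.trans h1)
        obtain ⟨N, hN, hSN⟩ := h3 S
        apply (hc hN).2
        rw [eq_top_iff, ← hS, closure_le]
        exact hSN) ⊥ ⟨normal_bot, by
          intro hbt
          have h1 : Finite G := by
            have h2 : (Set.univ : Set G).Finite := by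
              have h3 : ((⊤ : Subgroup G) : Set G) = {1} := by rw [← hbt]; rfl
              rw [← coe_top, h3]
              exact Set.finite_singleton 1
            exact Set.finite_univ_iff.1 h2
          exact hinf.not_finite h1⟩
    have hNn := hN.prop.1
    refine ⟨N, hNn, Pool.Agent.V11238.MG.simple_of_maximal N hN.prop.2 fun L hL hNL hne => ?_⟩
    exact le_antisymm (hN.le_of_ge ⟨hL, hne⟩ hNL) hNL
  · intro N hN hs
    have hne : N ≠ ⊤ := by
      have h1 := hs.toNontrivial
      rwa [QuotientGroup.nontrivial_iff] at h1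
    refine ⟨?_, inferInstance, ?_, ?_⟩
    · rw [← not_finite_iff_infinite]
      intro hfin
      exact hne (hno N finiteIndex_of_finite_quotient)
    · intro q
      obtain ⟨g, rfl⟩ := QuotientGroup.mk'_surjective N q
      rw [← map_pow, hexp, map_one]
    · intro H hH
      have h1 : H.comap (QuotientGroup.mk' N) ≠ ⊤ := by
        intro h
        apply hH
        rw [← map_comap_eq_self_of_surjective (QuotientGroup.mk'_surjective N) H, h]
        exact map_top_of_surjective _ (QuotientGroup.mk'_surjective _)
      let f : H.comap (QuotientGroup.mk' N) →* H :=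
        { toFun := fun x => ⟨QuotientGroup.mk' N x, x.2⟩
          map_one' := rfl
          map_mul' := fun _ _ => rfl }
      refine LocFin.of_surj f ?_ (hlf _ h1)
      rintro ⟨x, hx⟩
      obtain ⟨y, rfl⟩ := QuotientGroup.mk'_surjective _ x
      exact ⟨⟨y, hx⟩, rfl⟩

end Pool.Agent.Results.MP_63f86b_al.SimpleReduction
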